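import Mathlib

/-!
# No Helly-type theorem for plane transversals of separated translates in three-space

For every `r` we exhibit a finite family of translates of the closed unit ball of `ℝ³`, no three
of which meet a common line, such that every subfamily with at most `r` members has a plane
transversal while the whole family has none.

The family consists of two balls centered at `(0, 0, w)` and `(0, 0, -w)`, with `w` slightly
larger than `1`, and of `N` balls centered at `R (cos (k π / N), sin (k π / N), 0)`, `k < N`, with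
`R` large and `R² (w² - 1) = m² w²`, `m = 1 / cos (π / N)`.
-/

set_option autoImplicit false

namespace Pool.Agent.Results.MP_23085c_co.NoHelly

open Metric Filter

/-- Euclidean space of dimension `d`. -/
abbrev E (d : ℕ) := EuclideanSpace ℝ (Fin d)

/-- `F` is a `k`-dimensional affine subspace (a `k`-flat). -/
def IsFlat {d : ℕ} (k : ℕ) (F : AffineSubspace ℝ (E d)) : Prop :=
  (F : Set (E d)).Nonempty ∧ Module.finrank ℝ F.direction = k

/-- The flat `F` meets the set `A`. -/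
def Meets {d : ℕ} (F : AffineSubspace ℝ (E d)) (A : Set (E d)) : Prop :=
  (A ∩ (F : Set (E d))).Nonempty

/-- Property `T^(d-1)`: some hyperplane meets every member of the family `𝒜`. -/
def HasTransversal {d : ℕ} (𝒜 : Set (Set (E d))) : Prop :=
  ∃ F : AffineSubspace ℝ (E d), IsFlat (d - 1) F ∧ ∀ A ∈ 𝒜, Meets F A

/-- Property `T^(d-1)(r)`: every subfamily of `𝒜` with at most `r` members has a hyperplane
transversal. -/
def PropT {d : ℕ} (r : ℕ) (𝒜 : Set (Set (E d))) : Prop :=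
  ∀ S : Finset (Set (E d)), (S : Set (Set (E d))) ⊆ 𝒜 → S.card ≤ r →
    HasTransversal (S : Set (Set (E d)))

/-- The family `𝒜` is `k`-separated: no `k + 2` distinct members meet a common `k`-flat. -/
def Separated {d : ℕ} (k : ℕ) (𝒜 : Set (Set (E d))) : Prop :=
  ∀ F : AffineSubspace ℝ (E d), IsFlat k F → ∀ S : Finset (Set (E d)),
    (S : Set (Set (E d))) ⊆ 𝒜 → S.card = k + 2 → ¬ ∀ A ∈ S, Meets F A

/-- inner product in coordinates -/
theorem inner3 (x y : E 3) : inner ℝ x y = x 0 * y 0 + x 1 * y 1 + x 2 * y 2 := by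
  rw [PiLp.inner_apply, Fin.sum_univ_three]
  simp [mul_comm]

theorem normsq3 (x : E 3) : ‖x‖ ^ 2 = x 0 ^ 2 + x 1 ^ 2 + x 2 ^ 2 := by
  rw [← real_inner_self_eq_norm_sq, inner3]
  ring

/-- a plane through `p` with normal `u` -/
theorem plane_flat (u p : E 3) (hu : u ≠ 0) :
    IsFlat 2 (AffineSubspace.mk' p (Submodule.span ℝ {u})ᗮ) := by
  refine ⟨⟨p, AffineSubspace.self_mem_mk' p _⟩, ?_⟩
  rw [AffineSubspace.direction_mk']
  have : Fact (Module.finrank ℝ (E 3) = 2 + 1) := ⟨by simp⟩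
  exact Submodule.finrank_orthogonal_span_singleton hu

theorem plane_meets (u p v : E 3) (hu : u ≠ 0) (h : |inner ℝ u (v - p)| ≤ ‖u‖) :
    Meets (AffineSubspace.mk' p (Submodule.span ℝ {u})ᗮ) (closedBall v 1) := by
  have hn : 0 < ‖u‖ := norm_pos_iff.2 hu
  refine ⟨v - (inner ℝ u (v - p) / ‖u‖ ^ 2) • u, ?_, ?_⟩
  · rw [mem_closedBall, dist_eq_norm, sub_sub_cancel_left, norm_neg, norm_smul, norm_div,
      Real.norm_eq_abs, norm_pow, norm_norm, pow_two, div_mul_eq_mul_div, mul_comm ‖u‖ ‖u‖,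
      mul_div_mul_right _ _ hn.ne', div_le_one hn]
    exact h
  · show _ ∈ AffineSubspace.mk' p _
    rw [AffineSubspace.mem_mk', vsub_eq_sub, Submodule.mem_orthogonal_singleton_iff_inner_right]
    have e : v - (inner ℝ u (v - p) / ‖u‖ ^ 2) • u - p
        = (v - p) - (inner ℝ u (v - p) / ‖u‖ ^ 2) • u := by abel
    rw [e, inner_sub_right, inner_smul_right, real_inner_self_eq_norm_sq,
      div_mul_cancel₀ _ (pow_ne_zero 2 hn.ne'), sub_self]

theorem flat_normal (F : AffineSubspace ℝ (E 3)) (hF : IsFlat 2 F) :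
    ∃ n : E 3, ∃ c : ℝ, ‖n‖ = 1 ∧ ∀ x ∈ F, inner ℝ n x = c := by
  obtain ⟨⟨p, hp⟩, hd⟩ := hF
  have h1 : Module.finrank ℝ (F.direction)ᗮ = 1 := by
    have := F.direction.finrank_add_finrank_orthogonal
    rw [hd] at this
    have h3 : Module.finrank ℝ (E 3) = 3 := by simp
    omega
  have h2 : (F.direction)ᗮ ≠ ⊥ := by
    intro h
    rw [h, finrank_bot] at h1
    exact absurd h1 (by norm_num)
  obtain ⟨m, hm, hm0⟩ := Submodule.exists_mem_ne_zero_of_ne_bot h2
  have hmn : ‖m‖ ≠ 0 := norm_ne_zero_iff.2 hm0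
  refine ⟨(‖m‖⁻¹ : ℝ) • m, inner ℝ ((‖m‖⁻¹ : ℝ) • m) p, ?_, ?_⟩
  · rw [norm_smul, norm_inv, norm_norm, inv_mul_cancel₀ hmn]
  · intro x hx
    have hxp : x - p ∈ F.direction := by
      have := AffineSubspace.vsub_mem_direction hx hp
      simpa using this
    have h0 : inner ℝ m (x - p) = (0 : ℝ) := by
      rw [Submodule.mem_orthogonal'] at hm
      exact hm _ hxp
    rw [inner_smul_left, inner_smul_left]
    rw [inner_sub_right] at h0
    have : inner ℝ m x = inner ℝ m p := by linarith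
    rw [this]

theorem meets_plane_bound (F : AffineSubspace ℝ (E 3)) (n : E 3) (c : ℝ) (hn : ‖n‖ = 1)
    (hF : ∀ x ∈ F, inner ℝ n x = c) (v : E 3) (h : Meets F (closedBall v 1)) :
    |inner ℝ n v - c| ≤ 1 := by
  obtain ⟨x, hx1, hx2⟩ := h
  rw [← hF x hx2, ← inner_sub_right]
  calc |inner ℝ n (v - x)| ≤ ‖n‖ * ‖v - x‖ := abs_real_inner_le_norm _ _
    _ ≤ 1 := by
      rw [hn, one_mul, ← dist_eq_norm, dist_comm]
      exact mem_closedBall.1 hx1

theorem flat_line (F : AffineSubspace ℝ (E 3)) (hF : IsFlat 1 F) :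
    ∃ q d : E 3, ‖d‖ = 1 ∧ inner ℝ q d = (0 : ℝ) ∧ ∀ x ∈ F, ∃ t : ℝ, x = q + t • d := by
  obtain ⟨⟨p, hp⟩, hd⟩ := hF
  obtain ⟨m, hm0, hm⟩ := finrank_eq_one_iff'.1 hd
  have hmm : (m : E 3) ≠ 0 := by
    intro h
    exact hm0 (Subtype.ext h)
  have hmn : ‖(m : E 3)‖ ≠ 0 := norm_ne_zero_iff.2 hmm
  set d : E 3 := (‖(m : E 3)‖⁻¹ : ℝ) • (m : E 3) with hd'
  have hd1 : ‖d‖ = 1 := by rw [hd', norm_smul, norm_inv, norm_norm, inv_mul_cancel₀ hmn]
  refine ⟨p - (inner ℝ p d : ℝ) • d, d, hd1, ?_, ?_⟩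
  · rw [inner_sub_left, inner_smul_left, real_inner_self_eq_norm_sq, hd1]
    simp
  · intro x hx
    have hxp : x - p ∈ F.direction := by
      have := AffineSubspace.vsub_mem_direction hx hp
      simpa using this
    obtain ⟨c, hc⟩ := hm ⟨x - p, hxp⟩
    have hc' : c • (m : E 3) = x - p := congrArg Subtype.val hc
    refine ⟨inner ℝ p d + c * ‖(m : E 3)‖, ?_⟩
    have : (c * ‖(m : E 3)‖) • d = x - p := by
      rw [hd', smul_smul, mul_assoc, mul_inv_cancel₀ hmn, mul_one, hc']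
    rw [add_smul, this]
    abel


section trig

open Real


/-- ring directions -/
noncomputable def ca (N : ℕ) (k : Fin N) : ℝ := cos (k.val * π / N)
noncomputable def sa (N : ℕ) (k : Fin N) : ℝ := sin (k.val * π / N)

theorem unit_circle (N : ℕ) (k : Fin N) : ca N k ^ 2 + sa N k ^ 2 = 1 := by
  unfold ca sa
  exact cos_sq_add_sin_sq _

theorem abs_cos_le (N : ℕ) (hN : 3 ≤ N) (x : ℝ) (h1 : π / N ≤ x) (h2 : x ≤ π - π / N) :
    |cos x| ≤ cos (π / N) := by
  have hN0 : (0 : ℝ) < N := by positivity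
  have hpi := pi_pos
  have h0 : 0 ≤ π / N := by positivity
  rw [abs_le]
  constructor
  · have : cos (π - x) ≤ cos (π / N) := by
      apply cos_le_cos_of_nonneg_of_le_pi h0
      · linarith
      · linarith
    rw [cos_pi_sub] at this
    linarith
  · apply cos_le_cos_of_nonneg_of_le_pi h0
    · linarith
    · exact h1

theorem dot_le (N : ℕ) (hN : 3 ≤ N) (i j : Fin N) (hij : i ≠ j) :
    |ca N i * ca N j + sa N i * sa N j| ≤ cos (π / N) := by
  have key : ∀ i j : Fin N, i < j → |ca N i * ca N j + sa N i * sa N j| ≤ cos (π / N) := by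
    intro i j hlt
    have hlt' : i.val < j.val := hlt
    have hN0 : (0 : ℝ) < N := by positivity
    have hpi := pi_pos
    have e : ca N i * ca N j + sa N i * sa N j = cos (j.val * π / N - i.val * π / N) := by
      unfold ca sa
      rw [cos_sub]
      ring
    rw [e]
    apply abs_cos_le N hN
    · have : (1 : ℝ) ≤ (j.val : ℝ) - i.val := by
        have : (i.val : ℝ) + 1 ≤ j.val := by exact_mod_cast hlt'
        linarith
      rw [← sub_div, ← sub_mul]
      apply div_le_div_of_nonneg_right _ hN0.le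
      nlinarith
    · have : (j.val : ℝ) - i.val ≤ N - 1 := by
        have h1 : (j.val : ℝ) + 1 ≤ N := by exact_mod_cast j.isLt
        have h2 : (0 : ℝ) ≤ i.val := Nat.cast_nonneg _
        linarith
      rw [← sub_div, ← sub_mul]
      have e2 : π - π / N = (N - 1) * π / N := by
        field_simp
      rw [e2]
      apply div_le_div_of_nonneg_right _ hN0.le
      nlinarith
  rcases lt_or_gt_of_ne hij with h | h
  · exact key i j h
  · have := key j i h
    rw [mul_comm (ca N i), mul_comm (sa N i)]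
    exact this

theorem cover (N : ℕ) (hN : 3 ≤ N) (x y s : ℝ) (hs : 0 ≤ s) (h : x ^ 2 + y ^ 2 = s ^ 2) :
    ∃ k : Fin N, s * cos (π / (2 * N)) ≤ |ca N k * x + sa N k * y| := by
  have hN0 : (0 : ℝ) < N := by positivity
  have hpi := pi_pos
  obtain ⟨φ, hx, hy⟩ : ∃ φ : ℝ, x = s * cos φ ∧ y = s * sin φ := by
    refine ⟨Complex.arg ⟨x, y⟩, ?_, ?_⟩
    · have h1 := Complex.norm_mul_cos_arg ⟨x, y⟩
      have h2 : ‖(⟨x, y⟩ : ℂ)‖ = s := by
        rw [Complex.norm_eq_sqrt_sq_add_sq]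
        simp only
        rw [h, Real.sqrt_sq hs]
      rw [h2] at h1
      exact h1.symm
    · have h1 := Complex.norm_mul_sin_arg ⟨x, y⟩
      have h2 : ‖(⟨x, y⟩ : ℂ)‖ = s := by
        rw [Complex.norm_eq_sqrt_sq_add_sq]
        simp only
        rw [h, Real.sqrt_sq hs]
      rw [h2] at h1
      exact h1.symm
  set j : ℤ := round (φ * N / π) with hj
  have hj2 : |φ * N / π - j| ≤ 1 / 2 := abs_sub_round _
  have hNz : (N : ℤ) ≠ 0 := by positivity
  have hNz' : (0 : ℤ) < N := by positivity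
  have hk1 : 0 ≤ j % N := Int.emod_nonneg _ hNz
  have hk2 : j % N < N := Int.emod_lt_of_pos _ hNz'
  let k : Fin N := ⟨(j % N).toNat, by omega⟩
  refine ⟨k, ?_⟩
  have hkval : (k.val : ℝ) = ((j % N : ℤ) : ℝ) := by
    have : ((k.val : ℕ) : ℤ) = j % N := by
      show (((j % N).toNat : ℕ) : ℤ) = j % N
      exact Int.toNat_of_nonneg hk1
    exact_mod_cast this
  have hdecomp : (j : ℝ) = (k.val : ℝ) + N * ((j / N : ℤ) : ℝ) := by
    rw [hkval]
    have := Int.emod_add_mul_ediv j N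
    exact_mod_cast this.symm
  have e : ca N k * x + sa N k * y = s * cos (φ - k.val * π / N) := by
    rw [hx, hy, cos_sub]
    unfold ca sa
    ring
  have e2 : φ - k.val * π / N = (φ - j * π / N) + ((j / N : ℤ) : ℝ) * π := by
    rw [hdecomp]
    field_simp
    ring
  have e3 : |cos (φ - k.val * π / N)| = |cos (φ - j * π / N)| := by
    rw [e2, cos_add_int_mul_pi, abs_mul]
    have : |((-1 : ℝ) ^ (j / N : ℤ))| = 1 := by
      rw [abs_zpow, abs_neg, abs_one, one_zpow]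
    rw [this, one_mul]
  rw [e, abs_mul, e3, abs_of_nonneg hs]
  apply mul_le_mul_of_nonneg_left _ hs
  have h5 : |φ - j * π / N| ≤ π / (2 * N) := by
    have : φ - j * π / N = (φ * N / π - j) * (π / N) := by
      field_simp
    rw [this, abs_mul, abs_of_nonneg (by positivity : (0:ℝ) ≤ π / N)]
    calc |φ * N / π - j| * (π / N) ≤ 1 / 2 * (π / N) := by
          apply mul_le_mul_of_nonneg_right hj2 (by positivity)
      _ = π / (2 * N) := by ring
  refine le_trans ?_ (le_abs_self _)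
  rw [← cos_abs (φ - j * π / N)]
  apply cos_le_cos_of_nonneg_of_le_pi (abs_nonneg _) _ h5
  have : (1 : ℝ) ≤ 2 * N := by
    have : (3 : ℝ) ≤ N := by exact_mod_cast hN
    linarith
  exact div_le_self hpi.le this

/-- non-collinearity of three distinct points of the unit circle -/
theorem det_ne (a1 b1 a2 b2 a3 b3 : ℝ) (h1 : a1 ^ 2 + b1 ^ 2 = 1) (h2 : a2 ^ 2 + b2 ^ 2 = 1)
    (h3 : a3 ^ 2 + b3 ^ 2 = 1) (h12 : ¬ (a1 = a2 ∧ b1 = b2)) (h13 : ¬ (a1 = a3 ∧ b1 = b3))
    (h23 : ¬ (a2 = a3 ∧ b2 = b3)) :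
    (a2 - a1) * (b3 - b1) - (b2 - b1) * (a3 - a1) ≠ 0 := by
  intro hD
  have hu : 0 < (a2 - a1) ^ 2 + (b2 - b1) ^ 2 := by
    rcases eq_or_ne (a2 - a1) 0 with h | h
    · have hb : b2 - b1 ≠ 0 := by
        intro hb
        exact h12 ⟨by linarith, by linarith⟩
      positivity
    · positivity
  set t : ℝ := ((a2 - a1) * (a3 - a1) + (b2 - b1) * (b3 - b1)) /
    ((a2 - a1) ^ 2 + (b2 - b1) ^ 2) with ht
  have e1 : a3 - a1 = t * (a2 - a1) := by
    rw [ht]
    field_simp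
    linear_combination (-(b2 - b1)) * hD
  have e2 : b3 - b1 = t * (b2 - b1) := by
    rw [ht]
    field_simp
    linear_combination (a2 - a1) * hD
  have e3 : t * (t - 1) * ((a2 - a1) ^ 2 + (b2 - b1) ^ 2) = 0 := by
    have ha3 : a3 = a1 + t * (a2 - a1) := by linarith
    have hb3 : b3 = b1 + t * (b2 - b1) := by linarith
    rw [ha3, hb3] at h3
    linear_combination h3 - h1 - t * (h2 - h1)
  rcases mul_eq_zero.1 e3 with h | h
  · rcases mul_eq_zero.1 h with h | h
    · rw [h] at e1 e2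
      exact h13 ⟨by linarith, by linarith⟩
    · have : t = 1 := by linarith
      rw [this] at e1 e2
      exact h23 ⟨by linarith, by linarith⟩
  · exact hu.ne' h


end trig


theorem scalar_contra (R m w y Q D : ℝ) (hm : 1 < m) (_hR : m < R)
    (hR2 : m ^ 2 < (R ^ 2 - m ^ 2) * (m - 1) ^ 2)
    (hw : w ^ 2 * (R ^ 2 - m ^ 2) = R ^ 2) (hy0 : 0 ≤ y)
    (hQ : Q ^ 2 + w ^ 2 - w ^ 2 * D ≤ 1) (hyy : y ^ 2 = R ^ 2 * D) (hy : y ≤ 1 + Q) : False := by
  have hA : 0 < R ^ 2 - m ^ 2 := by nlinarith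
  have hQ2 : Q ^ 2 * (R ^ 2 - m ^ 2) ≤ y ^ 2 - m ^ 2 := by
    have h1 := mul_le_mul_of_nonneg_right hQ hA.le
    have e : (Q ^ 2 + w ^ 2 - w ^ 2 * D) * (R ^ 2 - m ^ 2)
        = Q ^ 2 * (R ^ 2 - m ^ 2) + R ^ 2 - y ^ 2 := by
      rw [hyy]
      linear_combination (1 - D) * hw
    rw [e] at h1
    linarith
  have hym : m ≤ y := by
    have h0 := mul_nonneg (sq_nonneg Q) hA.le
    exact le_of_sq_le_sq (by linarith) hy0
  have hyq : (y - 1) ^ 2 ≤ Q ^ 2 := by
    have h1 : 0 ≤ y - 1 := by linarith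
    have h2 : y - 1 ≤ Q := by linarith
    exact pow_le_pow_left₀ h1 h2 2
  have hf : (y - 1) ^ 2 * (R ^ 2 - m ^ 2) ≤ y ^ 2 - m ^ 2 := by
    have := mul_le_mul_of_nonneg_right hyq hA.le
    linarith
  have h3 : (m - 1) * y ≤ m * (y - 1) := by nlinarith
  have h4 : ((m - 1) * y) ^ 2 ≤ (m * (y - 1)) ^ 2 :=
    pow_le_pow_left₀ (mul_nonneg (by linarith) hy0) h3 2
  have h5 : (y - 1) ^ 2 * m ^ 2 < (y - 1) ^ 2 * ((R ^ 2 - m ^ 2) * (m - 1) ^ 2) := by
    apply mul_lt_mul_of_pos_left hR2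
    have : 0 < y - 1 := by linarith
    positivity
  have h6 : (y - 1) ^ 2 * (R ^ 2 - m ^ 2) * (m - 1) ^ 2 ≤ (y ^ 2 - m ^ 2) * (m - 1) ^ 2 :=
    mul_le_mul_of_nonneg_right hf (sq_nonneg _)
  have h7 := mul_nonneg (sq_nonneg m) (sq_nonneg (m - 1))
  nlinarith only [h4, h5, h6, h7]

/-- The line `q + ℝ d` passes within distance one of the pole `(0,0,w)`, `(0,0,-w)` and of
a point `v` of norm `R` in the horizontal plane: impossible. -/
theorem no_line_poles (q d : E 3) (R m w : ℝ) (v vp vm : E 3)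
    (hd : ‖d‖ = 1) (hqd : inner ℝ q d = (0 : ℝ)) (hm : 1 < m) (hR : m < R)
    (hR2 : m ^ 2 < (R ^ 2 - m ^ 2) * (m - 1) ^ 2)
    (hw : w ^ 2 * (R ^ 2 - m ^ 2) = R ^ 2)
    (hvp0 : vp 0 = 0) (hvp1 : vp 1 = 0) (hvp2 : vp 2 = w)
    (hvm0 : vm 0 = 0) (hvm1 : vm 1 = 0) (hvm2 : vm 2 = -w)
    (hv : ‖v‖ = R) (hv2 : v 2 = 0)
    (tp tm t : ℝ) (hp : ‖vp - (q + tp • d)‖ ≤ 1) (hmi : ‖vm - (q + tm • d)‖ ≤ 1)
    (h : ‖v - (q + t • d)‖ ≤ 1) : False := by
  have hd2 : d 0 ^ 2 + d 1 ^ 2 + d 2 ^ 2 = 1 := by rw [← normsq3, hd]; norm_num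
  have hqd2 : q 0 * d 0 + q 1 * d 1 + q 2 * d 2 = 0 := by rw [← inner3, hqd]
  have hqn : ‖q‖ ^ 2 = q 0 ^ 2 + q 1 ^ 2 + q 2 ^ 2 := normsq3 q
  have hvn : v 0 ^ 2 + v 1 ^ 2 = R ^ 2 := by
    have := normsq3 v
    rw [hv, hv2] at this
    linarith
  have key : ∀ (x : E 3) (s : ℝ), ‖x - (q + s • d)‖ ≤ 1 →
      (x 0 - q 0) ^ 2 + (x 1 - q 1) ^ 2 + (x 2 - q 2) ^ 2
        - (x 0 * d 0 + x 1 * d 1 + x 2 * d 2) ^ 2 ≤ 1 := by
    intro x s hx
    have h1 : ‖x - (q + s • d)‖ ^ 2 ≤ 1 := by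
      have := pow_le_pow_left₀ (norm_nonneg (x - (q + s • d))) hx 2
      rw [one_pow] at this
      exact this
    rw [normsq3] at h1
    have e0 : (x - (q + s • d)) 0 = x 0 - (q 0 + s * d 0) := rfl
    have e1 : (x - (q + s • d)) 1 = x 1 - (q 1 + s * d 1) := rfl
    have e2 : (x - (q + s • d)) 2 = x 2 - (q 2 + s * d 2) := rfl
    rw [e0, e1, e2] at h1
    have e : (x 0 - (q 0 + s * d 0)) ^ 2 + (x 1 - (q 1 + s * d 1)) ^ 2
        + (x 2 - (q 2 + s * d 2)) ^ 2
        = (x 0 - q 0) ^ 2 + (x 1 - q 1) ^ 2 + (x 2 - q 2) ^ 2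
          - (x 0 * d 0 + x 1 * d 1 + x 2 * d 2) ^ 2
          + ((x 0 * d 0 + x 1 * d 1 + x 2 * d 2) - s) ^ 2 := by
      linear_combination s ^ 2 * hd2 + 2 * s * hqd2
    have h9 := sq_nonneg ((x 0 * d 0 + x 1 * d 1 + x 2 * d 2) - s)
    linarith only [h1, e, h9]
  have k1 := key vp tp hp
  have k2 := key vm tm hmi
  have k3 := key v t h
  rw [hvp0, hvp1, hvp2] at k1
  rw [hvm0, hvm1, hvm2] at k2
  rw [hv2] at k3
  have hQ : ‖q‖ ^ 2 + w ^ 2 - w ^ 2 * d 2 ^ 2 ≤ 1 := by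
    rw [hqn]
    linarith only [k1, k2]
  -- the projection of `v`
  set c : ℝ := v 0 * d 0 + v 1 * d 1 with hc
  have hP : ‖v - c • d‖ ^ 2 = R ^ 2 - c ^ 2 := by
    rw [normsq3]
    have e0 : (v - c • d) 0 = v 0 - c * d 0 := rfl
    have e1 : (v - c • d) 1 = v 1 - c * d 1 := rfl
    have e2 : (v - c • d) 2 = v 2 - c * d 2 := rfl
    rw [e0, e1, e2, hv2]
    have : c = v 0 * d 0 + v 1 * d 1 := hc
    linear_combination hvn + c ^ 2 * hd2 + 2 * c * this
  have hPq : ‖(v - c • d) - q‖ ≤ 1 := by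
    have : ‖(v - c • d) - q‖ ^ 2 ≤ 1 := by
      rw [normsq3]
      have e0 : (v - c • d - q) 0 = v 0 - c * d 0 - q 0 := rfl
      have e1 : (v - c • d - q) 1 = v 1 - c * d 1 - q 1 := rfl
      have e2 : (v - c • d - q) 2 = v 2 - c * d 2 - q 2 := rfl
      rw [e0, e1, e2, hv2]
      have hc' : c = v 0 * d 0 + v 1 * d 1 := hc
      have e : (v 0 - c * d 0 - q 0) ^ 2 + (v 1 - c * d 1 - q 1) ^ 2
          + (0 - c * d 2 - q 2) ^ 2
          = (v 0 - q 0) ^ 2 + (v 1 - q 1) ^ 2 + (0 - q 2) ^ 2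
            - (v 0 * d 0 + v 1 * d 1 + 0 * d 2) ^ 2 := by
        rw [← hc']
        linear_combination c ^ 2 * hd2 + 2 * c * hqd2 + 2 * c * hc'
      rw [e]
      exact k3
    exact le_of_sq_le_sq (by rw [one_pow]; exact this) zero_le_one
  have hPle : ‖v - c • d‖ ≤ 1 + ‖q‖ := by
    calc ‖v - c • d‖ = ‖((v - c • d) - q) + q‖ := by rw [sub_add_cancel]
      _ ≤ ‖(v - c • d) - q‖ + ‖q‖ := norm_add_le _ _
      _ ≤ 1 + ‖q‖ := by linarith
  have hRpos : 0 < R := by linarith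
  have hcs : c ^ 2 ≤ R ^ 2 * (1 - d 2 ^ 2) := by
    have h0 : c = v 0 * d 0 + v 1 * d 1 := hc
    have h1 : c ^ 2 + (v 0 * d 1 - v 1 * d 0) ^ 2 = R ^ 2 * (1 - d 2 ^ 2) := by
      rw [h0]
      linear_combination (d 0 ^ 2 + d 1 ^ 2) * hvn + R ^ 2 * hd2
    have h2 := sq_nonneg (v 0 * d 1 - v 1 * d 0)
    linarith only [h1, h2]
  have hy : R * |d 2| ≤ 1 + ‖q‖ := by
    have h1 : (R * |d 2|) ^ 2 ≤ ‖v - c • d‖ ^ 2 := by
      rw [mul_pow, sq_abs, hP]
      linarith only [hcs]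
    have h2 : R * |d 2| ≤ ‖v - c • d‖ := le_of_sq_le_sq h1 (norm_nonneg _)
    linarith only [h2, hPle]
  exact scalar_contra R m w (R * |d 2|) ‖q‖ (d 2 ^ 2) hm hR hR2 hw (by positivity) hQ
    (by rw [mul_pow, sq_abs]) hy

theorem coord_le (x : E 3) (i : Fin 3) : |x i| ≤ ‖x‖ := by
  have := PiLp.norm_apply_le x i
  simpa using this

/-- Three points near a common line have small horizontal determinant. -/
theorem det_small (q d a b c : E 3) (ta tb tc L : ℝ)
    (ha : ‖a - (q + ta • d)‖ ≤ 1) (hb : ‖b - (q + tb • d)‖ ≤ 1) (hc : ‖c - (q + tc • d)‖ ≤ 1)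
    (hb0 : |b 0 - a 0| ≤ L) (hb1 : |b 1 - a 1| ≤ L) (hc0 : |c 0 - a 0| ≤ L)
    (hc1 : |c 1 - a 1| ≤ L) :
    |(b 0 - a 0) * (c 1 - a 1) - (b 1 - a 1) * (c 0 - a 0)| ≤ 8 * L + 8 := by
  have hL : 0 ≤ L := le_trans (abs_nonneg _) hb0
  have cc : ∀ (x : E 3) (s : ℝ) (i : Fin 3), ‖x - (q + s • d)‖ ≤ 1 →
      |x i - (q i + s * d i)| ≤ 1 := by
    intro x s i hx
    have := coord_le (x - (q + s • d)) i
    have e : (x - (q + s • d)) i = x i - (q i + s * d i) := rfl
    rw [e] at this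
    linarith
  have a0 := cc a ta 0 ha
  have a1 := cc a ta 1 ha
  have b0 := cc b tb 0 hb
  have b1 := cc b tb 1 hb
  have c0 := cc c tc 0 hc
  have c1 := cc c tc 1 hc
  set A0 := a 0 - (q 0 + ta * d 0)
  set A1 := a 1 - (q 1 + ta * d 1)
  set B0 := b 0 - (q 0 + tb * d 0)
  set B1 := b 1 - (q 1 + tb * d 1)
  set C0 := c 0 - (q 0 + tc * d 0)
  set C1 := c 1 - (q 1 + tc * d 1)
  have e : (b 0 - a 0) * (c 1 - a 1) - (b 1 - a 1) * (c 0 - a 0)
      = (b 0 - a 0) * (C1 - A1) + (c 1 - a 1) * (B0 - A0) - (B0 - A0) * (C1 - A1)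
        - (b 1 - a 1) * (C0 - A0) - (c 0 - a 0) * (B1 - A1) + (B1 - A1) * (C0 - A0) := by
    simp only [A0, A1, B0, B1, C0, C1]
    ring
  have g : ∀ x y : ℝ, |x| ≤ 1 → |y| ≤ 1 → |x - y| ≤ 2 := by
    intro x y hx hy
    rw [abs_le] at *
    constructor <;> linarith [hx.1, hx.2, hy.1, hy.2]
  have m : ∀ x y X Y : ℝ, |x| ≤ X → |y| ≤ Y → |x * y| ≤ X * Y := by
    intro x y X Y hx hy
    rw [abs_mul]
    exact mul_le_mul hx hy (abs_nonneg _) (le_trans (abs_nonneg _) hx)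
  have t1 := m _ _ _ _ hb0 (g _ _ c1 a1)
  have t2 := m _ _ _ _ hc1 (g _ _ b0 a0)
  have t3 := m _ _ _ _ (g _ _ b0 a0) (g _ _ c1 a1)
  have t4 := m _ _ _ _ hb1 (g _ _ c0 a0)
  have t5 := m _ _ _ _ hc0 (g _ _ b1 a1)
  have t6 := m _ _ _ _ (g _ _ b1 a1) (g _ _ c0 a0)
  rw [e, abs_le]
  rw [abs_le] at t1 t2 t3 t4 t5 t6
  constructor <;> linarith [t1.1, t1.2, t2.1, t2.2, t3.1, t3.2, t4.1, t4.2, t5.1, t5.2,
    t6.1, t6.2]



theorem exists_R (N : ℕ) (m c : ℝ) (hm : 1 < m) (hc : 0 < c) :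
    ∃ R : ℝ, 1 ≤ R ∧ m < R ∧ m ^ 2 < (R ^ 2 - m ^ 2) * (m - 1) ^ 2 ∧ 1 ≤ c * (R - m) ∧
      (∀ i j : Fin N, ca N i * sa N j - sa N i * ca N j ≠ 0 →
        24 < R * |ca N i * sa N j - sa N i * ca N j|) ∧
      (∀ i j k : Fin N, (ca N j - ca N i) * (sa N k - sa N i)
          - (sa N j - sa N i) * (ca N k - ca N i) ≠ 0 →
        24 < R * |(ca N j - ca N i) * (sa N k - sa N i)
          - (sa N j - sa N i) * (ca N k - ca N i)|) := by
  have e1 : ∀ᶠ R : ℝ in atTop, 1 ≤ R := eventually_ge_atTop 1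
  have e2 : ∀ᶠ R : ℝ in atTop, m < R := eventually_gt_atTop m
  have e3 : ∀ᶠ R : ℝ in atTop, m ^ 2 < (R ^ 2 - m ^ 2) * (m - 1) ^ 2 := by
    have hm1 : 0 < (m - 1) ^ 2 := by
      have : 0 < m - 1 := by linarith
      positivity
    have : Tendsto (fun R : ℝ => (R ^ 2 - m ^ 2) * (m - 1) ^ 2) atTop atTop := by
      apply Tendsto.atTop_mul_const hm1
      exact tendsto_atTop_add_const_right _ _ (tendsto_pow_atTop two_ne_zero)
    exact this.eventually_gt_atTop _
  have e4 : ∀ᶠ R : ℝ in atTop, 1 ≤ c * (R - m) := by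
    have : Tendsto (fun R : ℝ => c * (R - m)) atTop atTop := by
      apply Tendsto.const_mul_atTop hc
      exact tendsto_atTop_add_const_right _ _ tendsto_id
    exact this.eventually_ge_atTop _
  have g : ∀ D : ℝ, ∀ᶠ R : ℝ in atTop, D ≠ 0 → 24 < R * |D| := by
    intro D
    by_cases h : D = 0
    · exact Eventually.of_forall fun R hD => absurd h hD
    · have : Tendsto (fun R : ℝ => R * |D|) atTop atTop :=
        tendsto_id.atTop_mul_const (abs_pos.2 h)
      exact (this.eventually_gt_atTop 24).mono fun R hR _ => hR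
  have e5 : ∀ᶠ R : ℝ in atTop, ∀ i j : Fin N, ca N i * sa N j - sa N i * ca N j ≠ 0 →
        24 < R * |ca N i * sa N j - sa N i * ca N j| := by
    rw [eventually_all]
    intro i
    rw [eventually_all]
    intro j
    exact g _
  have e6 : ∀ᶠ R : ℝ in atTop, ∀ i j k : Fin N, (ca N j - ca N i) * (sa N k - sa N i)
          - (sa N j - sa N i) * (ca N k - ca N i) ≠ 0 →
        24 < R * |(ca N j - ca N i) * (sa N k - sa N i)
          - (sa N j - sa N i) * (ca N k - ca N i)| := by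
    rw [eventually_all]
    intro i
    rw [eventually_all]
    intro j
    rw [eventually_all]
    intro k
    exact g _
  obtain ⟨R, h1, h2, h3, h4, h5, h6⟩ :=
    (e1.and (e2.and (e3.and (e4.and (e5.and e6))))).exists
  exact ⟨R, h1, h2, h3, h4, h5, h6⟩

/-- the centers -/
noncomputable def cen (N : ℕ) (R w : ℝ) : Bool ⊕ Fin N → E 3
  | Sum.inl true => !₂[0, 0, w]
  | Sum.inl false => !₂[0, 0, -w]
  | Sum.inr k => !₂[R * ca N k, R * sa N k, 0]

section
variable (N : ℕ) (R w m : ℝ)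

theorem cen_t0 : cen N R w (Sum.inl true) 0 = 0 := rfl
theorem cen_t1 : cen N R w (Sum.inl true) 1 = 0 := rfl
theorem cen_t2 : cen N R w (Sum.inl true) 2 = w := rfl
theorem cen_f0 : cen N R w (Sum.inl false) 0 = 0 := rfl
theorem cen_f1 : cen N R w (Sum.inl false) 1 = 0 := rfl
theorem cen_f2 : cen N R w (Sum.inl false) 2 = -w := rfl
theorem cen_r0 (k : Fin N) : cen N R w (Sum.inr k) 0 = R * ca N k := rfl
theorem cen_r1 (k : Fin N) : cen N R w (Sum.inr k) 1 = R * sa N k := rfl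
theorem cen_r2 (k : Fin N) : cen N R w (Sum.inr k) 2 = 0 := rfl

theorem cen_p (b : Bool) : cen N R w (Sum.inl b) 0 = 0 ∧ cen N R w (Sum.inl b) 1 = 0 := by
  cases b <;> exact ⟨rfl, rfl⟩

end

theorem ca_le (N : ℕ) (k : Fin N) : |ca N k| ≤ 1 := Real.abs_cos_le_one _
theorem sa_le (N : ℕ) (k : Fin N) : |sa N k| ≤ 1 := Real.abs_sin_le_one _

/-- the unit ball translated by `v` -/
theorem ball_translate (v : E 3) : (fun x => x + v) '' closedBall (0 : E 3) 1 = closedBall v 1 := by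
  ext y
  simp only [Set.mem_image, mem_closedBall, dist_zero_right]
  constructor
  · rintro ⟨x, hx, rfl⟩
    rw [dist_eq_norm, add_sub_cancel_right]
    exact hx
  · intro h
    refine ⟨y - v, ?_, sub_add_cancel _ _⟩
    rwa [dist_eq_norm] at h

theorem ball_inj {v v' : E 3} (h : closedBall v 1 = closedBall v' 1) : v = v' := by
  have h1 := congrArg Metric.diam h
  by_contra hne
  have hd : 0 < ‖v - v'‖ := norm_pos_iff.2 (sub_ne_zero.2 hne)
  -- the point v + (v - v')/|v-v'| is in the first ball only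
  have h2 : v + (‖v - v'‖⁻¹ : ℝ) • (v - v') ∈ closedBall v 1 := by
    rw [mem_closedBall, dist_eq_norm, add_sub_cancel_left, norm_smul, norm_inv, norm_norm,
      inv_mul_cancel₀ hd.ne']
  rw [h, mem_closedBall, dist_eq_norm] at h2
  have e : v + (‖v - v'‖⁻¹ : ℝ) • (v - v') - v' = (1 + ‖v - v'‖⁻¹ : ℝ) • (v - v') := by
    rw [add_smul, one_smul]
    abel
  rw [e, norm_smul, Real.norm_of_nonneg (by positivity), add_mul, one_mul,
    inv_mul_cancel₀ hd.ne'] at h2
  linarith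


section family


/-- a flat given as a line meets the ball -/
theorem near_of_meets (F : AffineSubspace ℝ (E 3)) (q d : E 3)
    (hF : ∀ x ∈ F, ∃ t : ℝ, x = q + t • d) (v : E 3) (h : Meets F (closedBall v 1)) :
    ∃ t : ℝ, ‖v - (q + t • d)‖ ≤ 1 := by
  obtain ⟨x, hx1, hx2⟩ := h
  obtain ⟨t, rfl⟩ := hF x hx2
  refine ⟨t, ?_⟩
  rw [← dist_eq_norm, dist_comm]
  exact mem_closedBall.1 hx1

variable {N : ℕ} {R w m : ℝ}

theorem cen_r_norm (hR : 0 ≤ R) (k : Fin N) : ‖cen N R w (Sum.inr k)‖ = R := by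
  have h := normsq3 (cen N R w (Sum.inr k))
  rw [cen_r0, cen_r1, cen_r2] at h
  have h2 := unit_circle N k
  have h3 : ‖cen N R w (Sum.inr k)‖ ^ 2 = R ^ 2 := by
    rw [h]
    linear_combination R ^ 2 * h2
  exact (pow_left_inj₀ (norm_nonneg _) hR two_ne_zero).1 h3

theorem sep_poles (hm : 1 < m) (hR : m < R) (hR2 : m ^ 2 < (R ^ 2 - m ^ 2) * (m - 1) ^ 2)
    (hw : w ^ 2 * (R ^ 2 - m ^ 2) = R ^ 2) (F : AffineSubspace ℝ (E 3)) (hF : IsFlat 1 F)
    (k : Fin N)
    (h1 : Meets F (closedBall (cen N R w (Sum.inl true)) 1))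
    (h2 : Meets F (closedBall (cen N R w (Sum.inl false)) 1))
    (h3 : Meets F (closedBall (cen N R w (Sum.inr k)) 1)) : False := by
  obtain ⟨q, d, hd, hqd, hl⟩ := flat_line F hF
  obtain ⟨t1, ht1⟩ := near_of_meets F q d hl _ h1
  obtain ⟨t2, ht2⟩ := near_of_meets F q d hl _ h2
  obtain ⟨t3, ht3⟩ := near_of_meets F q d hl _ h3
  exact no_line_poles q d R m w _ _ _ hd hqd hm hR hR2 hw (cen_t0 N R w) (cen_t1 N R w)
    (cen_t2 N R w) (cen_f0 N R w) (cen_f1 N R w) (cen_f2 N R w)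
    (cen_r_norm (by linarith) k) (cen_r2 N R w k) t1 t2 t3 ht1 ht2 ht3

theorem coord_bound (hR : 0 ≤ R) (a : ℝ) (ha : |a| ≤ 1) : |R * a| ≤ R := by
  rw [abs_mul, abs_of_nonneg hR]
  nlinarith [abs_nonneg a]

theorem sep_pole_ring (hR1 : 1 ≤ R)
    (hD : ∀ i j : Fin N, ca N i * sa N j - sa N i * ca N j ≠ 0 →
        24 < R * |ca N i * sa N j - sa N i * ca N j|)
    (F : AffineSubspace ℝ (E 3)) (hF : IsFlat 1 F)
    (b : Bool) (i j : Fin N) (hij : ca N i * sa N j - sa N i * ca N j ≠ 0)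
    (h1 : Meets F (closedBall (cen N R w (Sum.inl b)) 1))
    (h2 : Meets F (closedBall (cen N R w (Sum.inr i)) 1))
    (h3 : Meets F (closedBall (cen N R w (Sum.inr j)) 1)) : False := by
  obtain ⟨q, d, hd, hqd, hl⟩ := flat_line F hF
  obtain ⟨t1, ht1⟩ := near_of_meets F q d hl _ h1
  obtain ⟨t2, ht2⟩ := near_of_meets F q d hl _ h2
  obtain ⟨t3, ht3⟩ := near_of_meets F q d hl _ h3
  have hR0 : 0 ≤ R := by linarith
  have hp := cen_p N R w b
  have := det_small q d _ _ _ t1 t2 t3 R ht1 ht2 ht3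
    (by rw [hp.1, cen_r0, sub_zero]; exact coord_bound hR0 _ (ca_le N i))
    (by rw [hp.2, cen_r1, sub_zero]; exact coord_bound hR0 _ (sa_le N i))
    (by rw [hp.1, cen_r0, sub_zero]; exact coord_bound hR0 _ (ca_le N j))
    (by rw [hp.2, cen_r1, sub_zero]; exact coord_bound hR0 _ (sa_le N j))
  rw [hp.1, hp.2, cen_r0, cen_r0, cen_r1, cen_r1] at this
  have e : (R * ca N i - 0) * (R * sa N j - 0) - (R * sa N i - 0) * (R * ca N j - 0)
      = R * (R * (ca N i * sa N j - sa N i * ca N j)) := by ring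
  rw [e, abs_mul, abs_mul, abs_of_nonneg hR0] at this
  have h4 := hD i j hij
  nlinarith

theorem sep_ring (hR1 : 1 ≤ R)
    (hD : ∀ i j k : Fin N, (ca N j - ca N i) * (sa N k - sa N i)
          - (sa N j - sa N i) * (ca N k - ca N i) ≠ 0 →
        24 < R * |(ca N j - ca N i) * (sa N k - sa N i)
          - (sa N j - sa N i) * (ca N k - ca N i)|)
    (F : AffineSubspace ℝ (E 3)) (hF : IsFlat 1 F)
    (i j k : Fin N) (hijk : (ca N j - ca N i) * (sa N k - sa N i)
          - (sa N j - sa N i) * (ca N k - ca N i) ≠ 0)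
    (h1 : Meets F (closedBall (cen N R w (Sum.inr i)) 1))
    (h2 : Meets F (closedBall (cen N R w (Sum.inr j)) 1))
    (h3 : Meets F (closedBall (cen N R w (Sum.inr k)) 1)) : False := by
  obtain ⟨q, d, hd, hqd, hl⟩ := flat_line F hF
  obtain ⟨t1, ht1⟩ := near_of_meets F q d hl _ h1
  obtain ⟨t2, ht2⟩ := near_of_meets F q d hl _ h2
  obtain ⟨t3, ht3⟩ := near_of_meets F q d hl _ h3
  have hR0 : 0 ≤ R := by linarith
  have cb : ∀ a b : ℝ, |a| ≤ 1 → |b| ≤ 1 → |R * a - R * b| ≤ 2 * R := by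
    intro a b ha hb
    have h5 := coord_bound hR0 a ha
    have h6 := coord_bound hR0 b hb
    rw [abs_le] at *
    constructor <;> linarith [h5.1, h5.2, h6.1, h6.2]
  have := det_small q d _ _ _ t1 t2 t3 (2 * R) ht1 ht2 ht3
    (by rw [cen_r0, cen_r0]; exact cb _ _ (ca_le N j) (ca_le N i))
    (by rw [cen_r1, cen_r1]; exact cb _ _ (sa_le N j) (sa_le N i))
    (by rw [cen_r0, cen_r0]; exact cb _ _ (ca_le N k) (ca_le N i))
    (by rw [cen_r1, cen_r1]; exact cb _ _ (sa_le N k) (sa_le N i))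
  rw [cen_r0, cen_r0, cen_r0, cen_r1, cen_r1, cen_r1] at this
  have e : (R * ca N j - R * ca N i) * (R * sa N k - R * sa N i)
      - (R * sa N j - R * sa N i) * (R * ca N k - R * ca N i)
      = R * (R * ((ca N j - ca N i) * (sa N k - sa N i)
          - (sa N j - sa N i) * (ca N k - ca N i))) := by ring
  rw [e, abs_mul, abs_mul, abs_of_nonneg hR0] at this
  have h4 := hD i j k hijk
  nlinarith

theorem scalar2 (R m c₁ X y C : ℝ) (hm : 1 < m) (hR : m < R) (hmc : 1 < m * c₁)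
    (hcR : 1 ≤ c₁ * (R - m)) (hX0 : 0 ≤ X) (hy0 : 0 ≤ y) (hC : 0 ≤ C) (hA : X + C ≤ 1)
    (hB : y * c₁ ≤ 1 + C) (hw2 : X ^ 2 * (R ^ 2 - m ^ 2) = R ^ 2 - y ^ 2) : False := by
  have hR0 : 0 < R := by linarith
  have hA' : 0 < R ^ 2 - m ^ 2 := by nlinarith
  have hX1 : X ≤ 1 := by linarith
  have hX2 : X ^ 2 ≤ X := by nlinarith
  have hyc : y * c₁ ≤ 2 - X ^ 2 := by linarith
  have hym : m ≤ y := by
    have h5 : X ^ 2 * (R ^ 2 - m ^ 2) ≤ 1 * (R ^ 2 - m ^ 2) := by
      apply mul_le_mul_of_nonneg_right _ hA'.le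
      linarith
    exact le_of_sq_le_sq (by linarith) hy0
  have hyR : y ≤ R := by
    have h5 := mul_nonneg (sq_nonneg X) hA'.le
    exact le_of_sq_le_sq (by linarith) hR0.le
  have hRm : 0 < R - m := by linarith
  have h6 : (y ^ 2 - m ^ 2) * (R - m) ≤ (y - m) * (R ^ 2 - m ^ 2) := by
    have : 0 ≤ (y - m) * (R - m) * (R - y) := by
      apply mul_nonneg (mul_nonneg (by linarith) hRm.le) (by linarith)
    nlinarith only [this]
  have h7 : (y * c₁ - 1) * (R ^ 2 - m ^ 2) ≤ y ^ 2 - m ^ 2 := by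
    have h8 := mul_le_mul_of_nonneg_right hyc hA'.le
    nlinarith only [h8, hw2]
  have h8 : (y * c₁ - 1) * (R ^ 2 - m ^ 2) * (R - m) ≤ (y - m) * (R ^ 2 - m ^ 2) :=
    (mul_le_mul_of_nonneg_right h7 hRm.le).trans h6
  have h9 : (y * c₁ - 1) * (R - m) ≤ y - m := by
    have : ((y * c₁ - 1) * (R - m)) * (R ^ 2 - m ^ 2) ≤ (y - m) * (R ^ 2 - m ^ 2) := by
      calc ((y * c₁ - 1) * (R - m)) * (R ^ 2 - m ^ 2)
          = (y * c₁ - 1) * (R ^ 2 - m ^ 2) * (R - m) := by ring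
        _ ≤ _ := h8
    exact le_of_mul_le_mul_right this hA'
  have h10 : 0 ≤ (y - m) * (c₁ * (R - m) - 1) := mul_nonneg (by linarith) (by linarith)
  have h11 : 0 < (m * c₁ - 1) * (R - m) := mul_pos (by linarith) hRm
  nlinarith only [h9, h10, h11]

/-- no plane meets all the balls -/
theorem no_plane (hN : 3 ≤ N) (c₁ : ℝ) (hc : c₁ = Real.cos (Real.pi / (2 * N)))
    (hm : 1 < m) (hR : m < R) (hmc : 1 < m * c₁) (hcR : 1 ≤ c₁ * (R - m)) (hw0 : 0 ≤ w)
    (hw : w ^ 2 * (R ^ 2 - m ^ 2) = R ^ 2) (F : AffineSubspace ℝ (E 3)) (hF : IsFlat 2 F)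
    (h : ∀ i : Bool ⊕ Fin N, Meets F (closedBall (cen N R w i) 1)) : False := by
  obtain ⟨n, c, hn, hl⟩ := flat_normal F hF
  have hb : ∀ i, |inner ℝ n (cen N R w i) - c| ≤ 1 := fun i =>
    meets_plane_bound F n c hn hl _ (h i)
  have h1 := hb (Sum.inl true)
  have h2 := hb (Sum.inl false)
  rw [inner3, cen_t0, cen_t1, cen_t2] at h1
  rw [inner3, cen_f0, cen_f1, cen_f2] at h2
  have hn2 : n 0 ^ 2 + n 1 ^ 2 + n 2 ^ 2 = 1 := by rw [← normsq3, hn]; norm_num
  have hA : w * |n 2| + |c| ≤ 1 := by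
    have e : w * |n 2| = |n 2 * w| := by rw [abs_mul, abs_of_nonneg hw0, mul_comm]
    rw [e]
    rw [abs_le] at h1 h2
    rcases abs_cases (n 2 * w) with ⟨e1, _⟩ | ⟨e1, _⟩ <;> rcases abs_cases c with ⟨e2, _⟩ | ⟨e2, _⟩ <;>
      rw [e1, e2] <;> linarith [h1.1, h1.2, h2.1, h2.2]
  set s : ℝ := Real.sqrt (n 0 ^ 2 + n 1 ^ 2) with hs
  have hs0 : 0 ≤ s := Real.sqrt_nonneg _
  have hs2 : s ^ 2 = n 0 ^ 2 + n 1 ^ 2 := Real.sq_sqrt (by positivity)
  obtain ⟨k, hk⟩ := cover N hN (n 0) (n 1) s hs0 hs2.symm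
  have h3 := hb (Sum.inr k)
  rw [inner3, cen_r0, cen_r1, cen_r2] at h3
  have hR0 : 0 < R := by linarith
  have hB : R * (s * c₁) ≤ 1 + |c| := by
    have h4 : |R * (ca N k * n 0 + sa N k * n 1)| ≤ 1 + |c| := by
      have e : R * (ca N k * n 0 + sa N k * n 1)
          = (n 0 * (R * ca N k) + n 1 * (R * sa N k) + n 2 * 0 - c) + c := by ring
      rw [e]
      exact (abs_add_le _ _).trans (by linarith)
    rw [abs_mul, abs_of_pos hR0] at h4
    rw [hc]
    exact (mul_le_mul_of_nonneg_left hk hR0.le).trans h4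
  have hw2 : (w * |n 2|) ^ 2 * (R ^ 2 - m ^ 2) = R ^ 2 - (R * s) ^ 2 := by
    have e1 : (w * |n 2|) ^ 2 = w ^ 2 * n 2 ^ 2 := by rw [mul_pow, sq_abs]
    rw [e1, mul_pow, hs2]
    linear_combination (n 2 ^ 2) * hw + R ^ 2 * hn2
  exact scalar2 R m c₁ (w * |n 2|) (R * s) |c| hm hR hmc hcR (by positivity) (by positivity)
    (abs_nonneg c) hA (by rw [mul_assoc]; exact hB) hw2

/-- if a ring ball is missing there is a plane meeting all the others -/
theorem plane_missing (hm : 1 < m) (hR : m < R) (hw0 : 0 < w)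
    (hw : w ^ 2 * (R ^ 2 - m ^ 2) = R ^ 2) (k : Fin N)
    (hdot : ∀ i, i ≠ k → |ca N k * ca N i + sa N k * sa N i| * m ≤ 1) :
    ∃ F : AffineSubspace ℝ (E 3), IsFlat 2 F ∧
      ∀ i : Bool ⊕ Fin N, i ≠ Sum.inr k → Meets F (closedBall (cen N R w i) 1) := by
  have hA' : 0 < R ^ 2 - m ^ 2 := by nlinarith
  have hR0 : 0 < R := by linarith
  -- lam = m w / R
  set l : ℝ := m * w / R with hl
  have hl0 : 0 ≤ l := by positivity
  have hl2 : l ^ 2 + 1 = w ^ 2 := by
    have h1 : l ^ 2 * R ^ 2 = m ^ 2 * w ^ 2 := by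
      rw [hl]
      field_simp
    have h2 : (l ^ 2 + 1 - w ^ 2) * R ^ 2 = 0 := by
      linear_combination h1 - hw
    rcases mul_eq_zero.1 h2 with h | h
    · linarith
    · exact absurd h (by positivity)
  have hlR : l * R = m * w := by
    rw [hl]
    field_simp
  set u : E 3 := !₂[l * ca N k, l * sa N k, 1] with hu
  have u0 : u 0 = l * ca N k := rfl
  have u1 : u 1 = l * sa N k := rfl
  have u2 : u 2 = 1 := rfl
  have hun : ‖u‖ = w := by
    have h1 : ‖u‖ ^ 2 = w ^ 2 := by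
      rw [normsq3, u0, u1, u2]
      linear_combination hl2 + l ^ 2 * unit_circle N k
    exact (pow_left_inj₀ (norm_nonneg _) hw0.le two_ne_zero).1 h1
  have hu0 : u ≠ 0 := by
    intro h
    rw [h, norm_zero] at hun
    linarith
  refine ⟨AffineSubspace.mk' 0 (Submodule.span ℝ {u})ᗮ, plane_flat u 0 hu0, ?_⟩
  intro i hi
  apply plane_meets u 0 _ hu0
  rw [sub_zero, inner3, u0, u1, u2, hun]
  rcases i with b | i
  · cases b
    · rw [cen_f0, cen_f1, cen_f2]
      have : l * ca N k * 0 + l * sa N k * 0 + 1 * (-w) = -w := by ring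
      rw [this, abs_neg, abs_of_pos hw0]
    · rw [cen_t0, cen_t1, cen_t2]
      have : l * ca N k * 0 + l * sa N k * 0 + 1 * w = w := by ring
      rw [this, abs_of_pos hw0]
  · have hik : i ≠ k := fun h => hi (by rw [h])
    rw [cen_r0, cen_r1, cen_r2]
    have e : l * ca N k * (R * ca N i) + l * sa N k * (R * sa N i) + 1 * 0
        = (l * R) * (ca N k * ca N i + sa N k * sa N i) := by ring
    rw [e, hlR, abs_mul, abs_of_pos (by positivity : 0 < m * w)]
    have := hdot i hik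
    calc m * w * |ca N k * ca N i + sa N k * sa N i|
        = w * (|ca N k * ca N i + sa N k * sa N i| * m) := by ring
      _ ≤ w * 1 := mul_le_mul_of_nonneg_left this hw0.le
      _ = w := mul_one w


end family

/-- There are only two booleans. -/
theorem three_bool : ∀ i j k : Bool, i ≠ j → i ≠ k → j ≠ k → False := by
  decide

/-- For every `r` there is a finite `1`-separated family of translates of the closed unit ball
of three-space in which every at most `r` members have a plane transversal, but which has no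
plane transversal. -/
theorem result (r : ℕ) : ∃ 𝒜 : Set (Set (E 3)), 𝒜.Finite ∧
    (∀ A ∈ 𝒜, ∃ v : E 3, A = (fun x => x + v) '' closedBall (0 : E 3) 1) ∧
    Separated 1 𝒜 ∧ PropT r 𝒜 ∧ ¬ HasTransversal 𝒜 := by
  classical
  -- parameters
  set N : ℕ := r + 3 with hN
  have hN3 : 3 ≤ N := by omega
  have hN0 : (0 : ℝ) < N := by positivity
  have hpi := Real.pi_pos
  have hNR : (3 : ℝ) ≤ N := by exact_mod_cast hN3
  set c₀ : ℝ := Real.cos (Real.pi / N) with hc0
  set c₁ : ℝ := Real.cos (Real.pi / (2 * N)) with hc1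
  have hlt : Real.pi / N < Real.pi / 2 := by
    apply div_lt_div_of_pos_left hpi (by norm_num)
    linarith
  have h0 : 0 < Real.pi / N := by positivity
  have hc0pos : 0 < c₀ := Real.cos_pos_of_mem_Ioo ⟨by linarith, hlt⟩
  have hc0lt : c₀ < 1 := by
    rw [hc0, ← Real.cos_zero]
    exact Real.cos_lt_cos_of_nonneg_of_le_pi le_rfl (by linarith) h0
  have hc01 : c₀ < c₁ := by
    rw [hc0, hc1]
    apply Real.cos_lt_cos_of_nonneg_of_le_pi (by positivity) (by linarith)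
    apply div_lt_div_of_pos_left hpi hN0
    linarith
  have hc1pos : 0 < c₁ := by linarith
  set m : ℝ := 1 / c₀ with hm
  have hm1 : 1 < m := by
    rw [hm, lt_div_iff₀ hc0pos]
    linarith
  have hmc : 1 < m * c₁ := by
    rw [hm, one_div, inv_mul_eq_div, lt_div_iff₀ hc0pos]
    linarith
  obtain ⟨R, hR1, hmR, hR2, hcR, hD2, hD3⟩ := exists_R N m c₁ hm1 hc1pos
  have hR0 : 0 < R := by linarith
  have hA : 0 < R ^ 2 - m ^ 2 := by nlinarith
  set w : ℝ := Real.sqrt (R ^ 2 / (R ^ 2 - m ^ 2)) with hwdef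
  have hw2 : w ^ 2 = R ^ 2 / (R ^ 2 - m ^ 2) := Real.sq_sqrt (by positivity)
  have hw : w ^ 2 * (R ^ 2 - m ^ 2) = R ^ 2 := by
    rw [hw2]
    field_simp
  have hw0 : 0 < w := Real.sqrt_pos.2 (by positivity)
  -- facts about the ring directions
  have hdot : ∀ i j : Fin N, i ≠ j → |ca N i * ca N j + sa N i * sa N j| ≤ c₀ := fun i j hij =>
    dot_le N hN3 i j hij
  have hne : ∀ i j : Fin N, i ≠ j → ¬ (ca N i = ca N j ∧ sa N i = sa N j) := by
    intro i j hij h
    have h1 := hdot i j hij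
    rw [h.1, h.2] at h1
    have h2 := unit_circle N j
    have h3 : ca N j * ca N j + sa N j * sa N j = 1 := by linarith
    rw [h3, abs_one] at h1
    linarith
  have hdet2 : ∀ i j : Fin N, i ≠ j → ca N i * sa N j - sa N i * ca N j ≠ 0 := by
    intro i j hij h
    have h1 := hdot i j hij
    have h2 := unit_circle N i
    have h3 := unit_circle N j
    have h4 : (ca N i * ca N j + sa N i * sa N j) ^ 2 = 1 := by
      linear_combination (ca N j ^ 2 + sa N j ^ 2) * h2 + h3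
        - (ca N i * sa N j - sa N i * ca N j) * h
    have h5 : |ca N i * ca N j + sa N i * sa N j| ^ 2 = 1 := by rw [sq_abs, h4]
    have h6 := abs_nonneg (ca N i * ca N j + sa N i * sa N j)
    nlinarith
  have hdet3 : ∀ i j k : Fin N, i ≠ j → i ≠ k → j ≠ k →
      (ca N j - ca N i) * (sa N k - sa N i) - (sa N j - sa N i) * (ca N k - ca N i) ≠ 0 :=
    fun i j k hij hik hjk => det_ne _ _ _ _ _ _ (unit_circle N i) (unit_circle N j)
      (unit_circle N k) (hne i j hij) (hne i k hik) (hne j k hjk)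
  -- the family
  let B : Bool ⊕ Fin N → Set (E 3) := fun i => closedBall (cen N R w i) 1
  refine ⟨Set.range B, Set.finite_range B, ?_, ?_, ?_, ?_⟩
  · rintro A ⟨i, rfl⟩
    exact ⟨cen N R w i, (ball_translate _).symm⟩
  · -- separation
    intro F hF S hS hcard hmeet
    obtain ⟨A₁, A₂, A₃, h12, h13, h23, rfl⟩ := Finset.card_eq_three.1 hcard
    have m1 : A₁ ∈ Set.range B := hS (by simp)
    have m2 : A₂ ∈ Set.range B := hS (by simp)
    have m3 : A₃ ∈ Set.range B := hS (by simp)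
    have t1 : Meets F A₁ := hmeet _ (by simp)
    have t2 : Meets F A₂ := hmeet _ (by simp)
    have t3 : Meets F A₃ := hmeet _ (by simp)
    obtain ⟨i, rfl⟩ := m1
    obtain ⟨j, rfl⟩ := m2
    obtain ⟨k, rfl⟩ := m3
    have hij : i ≠ j := fun h => h12 (by rw [h])
    have hik : i ≠ k := fun h => h13 (by rw [h])
    have hjk : j ≠ k := fun h => h23 (by rw [h])
    have P : ∀ (b b' : Bool) (k : Fin N), b ≠ b' → Meets F (B (Sum.inl b)) →
        Meets F (B (Sum.inl b')) → Meets F (B (Sum.inr k)) → False := by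
      intro b b' k hb h1 h2 h3
      cases b <;> cases b'
      · exact hb rfl
      · exact sep_poles hm1 hmR hR2 hw F hF k h2 h1 h3
      · exact sep_poles hm1 hmR hR2 hw F hF k h1 h2 h3
      · exact hb rfl
    have Q : ∀ (b : Bool) (i j : Fin N), i ≠ j → Meets F (B (Sum.inl b)) →
        Meets F (B (Sum.inr i)) → Meets F (B (Sum.inr j)) → False := by
      intro b i j hij h1 h2 h3
      exact sep_pole_ring hR1 hD2 F hF b i j (hdet2 i j hij) h1 h2 h3
    rcases i with i | i <;> rcases j with j | j <;> rcases k with k | k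
    · exact three_bool i j k (fun h => hij (by rw [h])) (fun h => hik (by rw [h]))
        (fun h => hjk (by rw [h]))
    · exact P i j k (fun h => hij (by rw [h])) t1 t2 t3
    · exact P i k j (fun h => hik (by rw [h])) t1 t3 t2
    · exact Q i j k (fun h => hjk (by rw [h])) t1 t2 t3
    · exact P j k i (fun h => hjk (by rw [h])) t2 t3 t1
    · exact Q j i k (fun h => hik (by rw [h])) t2 t1 t3
    · exact Q k i j (fun h => hij (by rw [h])) t3 t1 t2
    · exact sep_ring hR1 hD3 F hF i j k (hdet3 i j k (fun h => hij (by rw [h]))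
        (fun h => hik (by rw [h])) (fun h => hjk (by rw [h]))) t1 t2 t3
  · -- small subfamilies have a transversal
    intro S hS hcard
    have hBinj : Function.Injective fun k : Fin N => B (Sum.inr k) := by
      intro i j hij
      have h1 : cen N R w (Sum.inr i) = cen N R w (Sum.inr j) := ball_inj hij
      by_contra hne'
      apply hne i j hne'
      have e0 : R * ca N i = R * ca N j := by
        rw [← cen_r0 N R w i, ← cen_r0 N R w j, h1]
      have e1 : R * sa N i = R * sa N j := by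
        rw [← cen_r1 N R w i, ← cen_r1 N R w j, h1]
      exact ⟨mul_left_cancel₀ hR0.ne' e0, mul_left_cancel₀ hR0.ne' e1⟩
    have hk : ∃ k : Fin N, B (Sum.inr k) ∉ S := by
      by_contra hcon
      push Not at hcon
      have h1 : (Finset.univ.image fun k : Fin N => B (Sum.inr k)) ⊆ S := by
        intro A hA
        obtain ⟨k, _, rfl⟩ := Finset.mem_image.1 hA
        exact hcon k
      have h2 := Finset.card_le_card h1
      rw [Finset.card_image_of_injective _ hBinj, Finset.card_univ, Fintype.card_fin] at h2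
      omega
    obtain ⟨k, hk⟩ := hk
    obtain ⟨F, hF, hmeet⟩ := plane_missing (N := N) (R := R) (w := w) (m := m) hm1 hmR hw0 hw k
      (fun i hik => by
        have h1 := hdot k i (Ne.symm hik)
        rw [hm, mul_one_div, div_le_one hc0pos]
        exact h1)
    refine ⟨F, hF, ?_⟩
    intro A hA
    obtain ⟨i, rfl⟩ := hS hA
    apply hmeet
    rintro rfl
    exact hk hA
  · -- the whole family has none
    rintro ⟨F, hF, hmeet⟩
    exact no_plane hN3 c₁ hc1 hm1 hmR hmc hcR hw0.le hw F hF (fun i => hmeet _ ⟨i, rfl⟩)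

end Pool.Agent.Results.MP_23085c_co.NoHelly
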